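import Pool.Agent.L0h42.PP.Stm2

/-! Project PP, module M4: the fourth moment of the sieve sums along a progression. -/

set_option autoImplicit false

namespace Pool.Agent.L0h64.PP
open Finset
open Pool.Agent.L0h42.TB
open Pool.Agent.L0h42.CP
open Pool.Agent.L0h42.PP
open Pool.Agent.H373R2.T7

/-- the least common multiple of four numbers -/
def l4 (e : Fin 4 → ℕ) : ℕ := univ.lcm e

lemma dvd_l4 (e : Fin 4 → ℕ) (i : Fin 4) : e i ∣ l4 e := Finset.dvd_lcm (mem_univ i)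

lemma l4_dvd_iff (e : Fin 4 → ℕ) (n : ℕ) : l4 e ∣ n ↔ ∀ i, e i ∣ n := by
  constructor
  · intro h i
    exact (dvd_l4 e i).trans h
  · intro h
    exact Finset.lcm_dvd fun i _ => h i

lemma l4_dvd_prod (e : Fin 4 → ℕ) : l4 e ∣ ∏ i, e i :=
  (l4_dvd_iff e _).2 fun i => Finset.dvd_prod_of_mem e (mem_univ i)

lemma l4_pos (e : Fin 4 → ℕ) (he : ∀ i, 1 ≤ e i) : 1 ≤ l4 e :=
  Nat.pos_of_dvd_of_pos (l4_dvd_prod e) (prod_pos fun i _ => he i)

lemma l4_le (e : Fin 4 → ℕ) (he : ∀ i, 1 ≤ e i) : l4 e ≤ ∏ i, e i :=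
  Nat.le_of_dvd (prod_pos fun i _ => he i) (l4_dvd_prod e)

lemma sum_l4 (R : ℕ) : ∑ e ∈ Fintype.piFinset (fun _ : Fin 4 => Icc 1 R), (1 : ℝ) / (l4 e : ℕ) ≤
    (1 + Real.log ((R ^ 4 : ℕ) : ℝ)) ^ 16 := by
  have hmap : ∀ e ∈ Fintype.piFinset (fun _ : Fin 4 => Icc 1 R), l4 e ∈ Icc 1 (R ^ 4) := by
    intro e he
    rw [Fintype.mem_piFinset] at he
    have h1 : ∀ i, 1 ≤ e i := fun i => (mem_Icc.1 (he i)).1
    rw [mem_Icc]
    refine ⟨l4_pos e h1, (l4_le e h1).trans ?_⟩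
    calc ∏ i, e i ≤ ∏ _i : Fin 4, R := prod_le_prod' fun i _ => (mem_Icc.1 (he i)).2
      _ = R ^ 4 := by rw [prod_const, card_univ, Fintype.card_fin]
  rw [← sum_fiberwise_of_maps_to hmap]
  refine le_trans (sum_le_sum ?_) (tau_pow_div 4 (R ^ 4))
  intro n hn
  rw [mem_Icc] at hn
  have h1 : ∀ e ∈ (Fintype.piFinset (fun _ : Fin 4 => Icc 1 R)).filter (fun e => l4 e = n),
      (1 : ℝ) / (l4 e : ℕ) = 1 / n := by
    intro e he
    rw [(mem_filter.1 he).2]
  rw [sum_congr rfl h1, sum_const, nsmul_eq_mul, mul_one_div]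
  apply div_le_div_of_nonneg_right _ (Nat.cast_nonneg n)
  have h2 : (Fintype.piFinset (fun _ : Fin 4 => Icc 1 R)).filter (fun e => l4 e = n) ⊆
      Fintype.piFinset (fun _ : Fin 4 => n.divisors) := by
    intro e he
    rw [mem_filter] at he
    rw [Fintype.mem_piFinset]
    intro i
    rw [Nat.mem_divisors]
    refine ⟨?_, by omega⟩
    rw [← he.2]
    exact dvd_l4 e i
  have h3 := card_le_card h2
  rw [Fintype.card_piFinset, prod_const, card_univ, Fintype.card_fin] at h3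
  exact_mod_cast h3

variable {k : ℕ}

/-- the least common multiples of four tuples -/
def L4 (D : Fin 4 → Fin k → ℕ) (l : Fin k) : ℕ := l4 fun i => D i l

lemma sum_L4 (z R : ℕ) : ∑ D ∈ Fintype.piFinset (fun _ : Fin 4 => PD (Fin k) z R),
    ∏ l, ((1 : ℝ) / (L4 D l : ℕ)) ≤ ((1 + Real.log ((R ^ 4 : ℕ) : ℝ)) ^ 16) ^ k := by
  have h1 : ∑ D ∈ Fintype.piFinset (fun _ : Fin 4 => PD (Fin k) z R), ∏ l, ((1 : ℝ) / (L4 D l : ℕ)) =
      ∑ E ∈ Fintype.piFinset (fun _ : Fin k => Fintype.piFinset (fun _ : Fin 4 => RR z R)),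
        ∏ l, ((1 : ℝ) / (l4 (E l) : ℕ)) := by
    refine sum_nbij' (fun D l i => D i l) (fun E i l => E l i) ?_ ?_ ?_ ?_ ?_
    · intro D hD
      rw [Fintype.mem_piFinset] at hD ⊢
      intro l
      rw [Fintype.mem_piFinset]
      intro i
      exact mem_PD.1 (hD i) l
    · intro E hE
      rw [Fintype.mem_piFinset] at hE ⊢
      intro i
      rw [mem_PD]
      intro l
      exact Fintype.mem_piFinset.1 (hE l) i
    · intro D _; rfl
    · intro E _; rfl
    · intro D _; rfl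
  rw [h1, ← prod_univ_sum (fun _ : Fin k => Fintype.piFinset (fun _ : Fin 4 => RR z R))
    (fun _ e => (1 : ℝ) / (l4 e : ℕ)), prod_const, card_univ, Fintype.card_fin]
  apply pow_le_pow_left₀ (sum_nonneg fun _ _ => by positivity)
  refine le_trans (sum_le_sum_of_subset_of_nonneg ?_ fun _ _ _ => by positivity) (sum_l4 R)
  apply Fintype.piFinset_subset
  intro _
  exact filter_subset _ _

/-- the number of the hits of four tuples -/
lemma count_hits (z R Y w g : ℕ) (h : Fin k → ℕ) (hinj : Function.Injective h) (hz : ∀ l, h l ≤ z)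
    (hw : w ≤ z) (hRY : R ^ 4 ≤ Y) (D : Fin 4 → Fin k → ℕ)
    (hD : ∀ i, D i ∈ PD (Fin k) z R) (hDR : ∀ i, ∏ l, D i l ≤ R) :
    (((Icc 1 Y).filter fun u => ∀ l, L4 D l ∣ Wp w * u + g + h l).card : ℝ) ≤
      2 * Y * ∏ l, ((1 : ℝ) / (L4 D l : ℕ)) := by
  set U := (Icc 1 Y).filter fun u => ∀ l, L4 D l ∣ Wp w * u + g + h l with hU
  have hrr : ∀ i l, D i l ∈ RR z R := fun i l => mem_PD.1 (hD i) l
  have h1 : ∀ i l, 1 ≤ D i l := fun i l => (mem_RR.1 (hrr i l)).1.1
  have hL1 : ∀ l, 1 ≤ L4 D l := fun l => l4_pos _ fun i => h1 i l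
  have hPos : 0 < ∏ l, L4 D l := prod_pos fun l _ => hL1 l
  have hcast : ∏ l, ((1 : ℝ) / (L4 D l : ℕ)) = 1 / ((∏ l, L4 D l : ℕ) : ℝ) := by
    push_cast
    rw [one_div, ← prod_inv_distrib]
    exact prod_congr rfl fun l _ => one_div _
  rcases U.eq_empty_or_nonempty with he | ⟨u0, hu0⟩
  · rw [he, card_empty, Nat.cast_zero]
    exact mul_nonneg (by positivity) (prod_nonneg fun _ _ => by positivity)
  rw [hU, mem_filter] at hu0
  -- the moduli are coprime to the small primes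
  have hcopW : ∀ l, (L4 D l).Coprime (Wp w) := by
    intro l
    have h2 : L4 D l ∣ Qp w R := (l4_dvd_iff _ _).2 fun i => RR_dvd_Qp hw le_rfl (hrr i l)
    exact (Nat.Coprime.coprime_dvd_right h2 (cop_WQ w R)).symm
  have hpz : ∀ l p, p.Prime → p ∣ L4 D l → z < p := by
    intro l p hp hpl
    by_contra hcon
    have h3 : p ∣ ∏ i, D i l := hpl.trans (l4_dvd_prod fun i => D i l)
    obtain ⟨i, _, hi⟩ := (Prime.dvd_finsetProd_iff (Nat.Prime.prime hp) _).1 h3
    exact (mem_RR.1 (hrr i l)).2.2 p (mem_pz.2 ⟨by omega, hp⟩) hi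
  have hcop : ∀ l m, l ≠ m → (L4 D l).Coprime (L4 D m) := by
    intro l m hlm
    rw [Nat.coprime_iff_gcd_eq_one]
    by_contra hne
    obtain ⟨p, hp, hpd⟩ := Nat.exists_prime_and_dvd hne
    have h3 : p ∣ L4 D l := hpd.trans (Nat.gcd_dvd_left _ _)
    have h4 : p ∣ L4 D m := hpd.trans (Nat.gcd_dvd_right _ _)
    exact hlm (two_forms hinj hz (hpz l p hp h3) (h3.trans (hu0.2 l)) (h4.trans (hu0.2 m)))
  have hmod : ∀ u ∈ U, u ≡ u0 [MOD ∏ l, L4 D l] := by
    intro u hu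
    rw [hU, mem_filter] at hu
    rw [Nat.modEq_iff_dvd]
    push_cast
    apply Finset.prod_dvd_of_coprime
    · intro l _ m _ hne
      rw [Function.onFun, Nat.isCoprime_iff_coprime]
      exact hcop l m hne
    · intro l _
      have h3 : ((L4 D l : ℕ) : ℤ) ∣ ((Wp w * u + g + h l : ℕ) : ℤ) := by exact_mod_cast hu.2 l
      have h4 : ((L4 D l : ℕ) : ℤ) ∣ ((Wp w * u0 + g + h l : ℕ) : ℤ) := by exact_mod_cast hu0.2 l
      have h5 : ((L4 D l : ℕ) : ℤ) ∣ (Wp w : ℤ) * ((u0 : ℤ) - u) := by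
        have := dvd_sub h4 h3
        have e : ((Wp w * u0 + g + h l : ℕ) : ℤ) - ((Wp w * u + g + h l : ℕ) : ℤ) =
            (Wp w : ℤ) * ((u0 : ℤ) - u) := by
          push_cast
          ring
        rwa [e] at this
      exact (Nat.isCoprime_iff_coprime.2 (hcopW l)).dvd_of_dvd_mul_left h5
  have hcard : U.card ≤ Y / (∏ l, L4 D l) + 1 := by
    rw [← card_range (Y / (∏ l, L4 D l) + 1)]
    refine card_le_card_of_injOn (fun u => u / ∏ l, L4 D l) ?_ ?_
    · intro u hu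
      have hu' : u ∈ U := hu
      rw [hU, mem_filter, mem_Icc] at hu'
      have := Nat.div_le_div_right (c := ∏ l, L4 D l) hu'.1.2
      simp only [coe_range, Set.mem_Iio]
      omega
    · intro u hu v hv huv
      have h3 : u % (∏ l, L4 D l) = v % (∏ l, L4 D l) := (hmod u hu).trans (hmod v hv).symm
      simp only at huv
      rw [← Nat.div_add_mod u (∏ l, L4 D l), ← Nat.div_add_mod v (∏ l, L4 D l), huv, h3]
  have hPY : ∏ l, L4 D l ≤ Y := by
    refine le_trans ?_ hRY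
    calc ∏ l, L4 D l ≤ ∏ l, ∏ i, D i l := prod_le_prod' fun l _ => l4_le _ fun i => h1 i l
      _ = ∏ i, ∏ l, D i l := prod_comm
      _ ≤ ∏ _i : Fin 4, R := prod_le_prod' fun i _ => hDR i
      _ = R ^ 4 := by rw [prod_const, card_univ, Fintype.card_fin]
  rw [hcast]
  have hPr : (0 : ℝ) < ((∏ l, L4 D l : ℕ) : ℝ) := by exact_mod_cast hPos
  have hPYr : ((∏ l, L4 D l : ℕ) : ℝ) ≤ Y := by exact_mod_cast hPY
  calc (U.card : ℝ) ≤ ((Y / (∏ l, L4 D l) + 1 : ℕ) : ℝ) := by exact_mod_cast hcard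
    _ ≤ (Y : ℝ) / ((∏ l, L4 D l : ℕ) : ℝ) + 1 := by
        rw [Nat.cast_add, Nat.cast_one]
        have := @Nat.cast_div_le ℝ _ _ _ Y (∏ l, L4 D l)
        linarith
    _ ≤ (Y : ℝ) / ((∏ l, L4 D l : ℕ) : ℝ) + (Y : ℝ) / ((∏ l, L4 D l : ℕ) : ℝ) := by
        have : (1 : ℝ) ≤ (Y : ℝ) / ((∏ l, L4 D l : ℕ) : ℝ) := by
          rw [le_div_iff₀ hPr, one_mul]
          exact hPYr
        linarith
    _ = _ := by ring

open Classical in
theorem t_M4 : S_M4 := by
  intro k _hk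
  refine ⟨16 * k, ?_⟩
  intro z R Y w g h Λ V hinj hz hw hR hRY hV hΛ hs
  set A := (PD (Fin k) z R).filter fun d => ∏ l, d l ≤ R with hA
  have h0 : ∀ a : ℕ, |SS z R Λ (cneg h) a| ≤ V * ∑ d ∈ A, (if Hit (cneg h) d a then (1 : ℝ) else 0) := by
    intro a
    unfold SS
    refine (abs_sum_le_sum_abs _ _).trans ?_
    rw [hA, mul_sum, sum_filter]
    apply sum_le_sum
    intro d hd
    by_cases hp : ∏ l, d l ≤ R
    · rw [if_pos hp, abs_mul]
      have h2 : |(if Hit (cneg h) d a then (1 : ℝ) else 0)| = if Hit (cneg h) d a then (1 : ℝ) else 0 := by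
        split_ifs <;> simp
      rw [h2]
      exact mul_le_mul_of_nonneg_right (hΛ d hd) (by split_ifs <;> norm_num)
    · rw [if_neg hp]
      have : Λ d = 0 := by
        by_contra h3
        exact hp (hs d h3)
      rw [this, zero_mul, abs_zero]
  have h1 : ∀ a : ℕ, SS z R Λ (cneg h) a ^ 4 ≤ V ^ 4 *
      ∑ D ∈ Fintype.piFinset (fun _ : Fin 4 => A), (if ∀ l, L4 D l ∣ a + h l then (1 : ℝ) else 0) := by
    intro a
    have h2 := pow_le_pow_left₀ (abs_nonneg _) (h0 a) 4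
    rw [Even.pow_abs (by decide)] at h2
    refine h2.trans (le_of_eq ?_)
    rw [mul_pow]
    congr 1
    have h3 : (∑ d ∈ A, (if Hit (cneg h) d a then (1 : ℝ) else 0)) ^ 4 =
        ∏ _i : Fin 4, ∑ d ∈ A, (if Hit (cneg h) d a then (1 : ℝ) else 0) := by
      rw [prod_const, card_univ, Fintype.card_fin]
    rw [h3, prod_univ_sum]
    apply sum_congr rfl
    intro D _
    have h4 : (∀ l, L4 D l ∣ a + h l) ↔ ∀ i, Hit (cneg h) (D i) a := by
      constructor
      · intro h5 i l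
        rw [dvd_cneg]
        exact (l4_dvd_iff _ _).1 (h5 l) i
      · intro h5 l
        refine (l4_dvd_iff _ _).2 fun i => ?_
        exact (dvd_cneg h _ a l).1 (h5 i l)
    by_cases h6 : ∀ i, Hit (cneg h) (D i) a
    · rw [if_pos (h4.2 h6)]
      exact prod_eq_one fun i _ => if_pos (h6 i)
    · rw [if_neg fun h7 => h6 (h4.1 h7)]
      push Not at h6
      obtain ⟨i, hi⟩ := h6
      exact prod_eq_zero (mem_univ i) (if_neg hi)
  have hY1 : 1 ≤ Y := le_trans (Nat.one_le_pow _ _ hR) hRY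
  calc ∑ u ∈ Icc 1 Y, SS z R Λ (cneg h) (Wp w * u + g) ^ 4
      ≤ ∑ u ∈ Icc 1 Y, V ^ 4 * ∑ D ∈ Fintype.piFinset (fun _ : Fin 4 => A),
          (if ∀ l, L4 D l ∣ Wp w * u + g + h l then (1 : ℝ) else 0) := sum_le_sum fun u _ => h1 _
    _ = V ^ 4 * ∑ D ∈ Fintype.piFinset (fun _ : Fin 4 => A),
          (((Icc 1 Y).filter fun u => ∀ l, L4 D l ∣ Wp w * u + g + h l).card : ℝ) := by
        rw [← mul_sum, sum_comm]
        congr 1
        apply sum_congr rfl
        intro D _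
        rw [card_filter]
        push_cast
        rfl
    _ ≤ V ^ 4 * ∑ D ∈ Fintype.piFinset (fun _ : Fin 4 => A), (2 * Y * ∏ l, ((1 : ℝ) / (L4 D l : ℕ))) := by
        apply mul_le_mul_of_nonneg_left _ (by positivity)
        apply sum_le_sum
        intro D hD
        rw [Fintype.mem_piFinset] at hD
        exact count_hits z R Y w g h hinj hz hw hRY D (fun i => (mem_filter.1 (hD i)).1)
          (fun i => (mem_filter.1 (hD i)).2)
    _ ≤ V ^ 4 * (2 * Y * ∑ D ∈ Fintype.piFinset (fun _ : Fin 4 => PD (Fin k) z R),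
          ∏ l, ((1 : ℝ) / (L4 D l : ℕ))) := by
        apply mul_le_mul_of_nonneg_left _ (by positivity)
        rw [← mul_sum]
        apply mul_le_mul_of_nonneg_left _ (by positivity)
        apply sum_le_sum_of_subset_of_nonneg
        · apply Fintype.piFinset_subset
          intro _
          exact filter_subset _ _
        · intro D _ _
          exact prod_nonneg fun _ _ => by positivity
    _ ≤ V ^ 4 * (2 * Y * (1 + Real.log Y) ^ (16 * k)) := by
        apply mul_le_mul_of_nonneg_left _ (by positivity)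
        apply mul_le_mul_of_nonneg_left _ (by positivity)
        refine (sum_L4 z R).trans ?_
        rw [← pow_mul]
        have h5 : (0 : ℝ) < ((R ^ 4 : ℕ) : ℝ) := by
          have : 0 < R ^ 4 := Nat.pow_pos hR
          exact_mod_cast this
        have h6 : Real.log ((R ^ 4 : ℕ) : ℝ) ≤ Real.log Y :=
          Real.log_le_log h5 (by exact_mod_cast hRY)
        have h7 : 0 ≤ Real.log ((R ^ 4 : ℕ) : ℝ) := Real.log_natCast_nonneg _
        exact pow_le_pow_left₀ (by linarith) (by linarith) _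

end Pool.Agent.L0h64.PP
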